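import Pool.Agent.W619.Y.Stm4

/-!
# Project PG, part SYM: symmetric functions of conjugates
-/

set_option autoImplicit false

open Set

universe u v

namespace Pool.Agent.W513.PG

open Pool.Agent.W619.Y (esy)

section tool

variable {k : Type v} {F : Type u} [Field k] [Field F] [Algebra k F]

/-- Exchange: if the algebraically independent elements `x i` are algebraic over `k(s)`, then as many
of the `s j` are algebraically independent. -/
theorem select {α : Type} [Finite α] (x : α → F) (hx : AlgebraicIndependent k x) {σ : Type}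
    (s : σ → F) (hs : ∀ i, IsAlgebraic (Algebra.adjoin k (range s)) (x i)) :
    ∃ f : α → σ, Function.Injective f ∧ AlgebraicIndependent k (fun j => s (f j)) := by
  classical
  have hinj : Function.Injective x := hx.injective
  have h1 : (AlgebraicIndependent.matroid k F).Indep (range x) := hx.to_subtype_range
  have h2 : range x ⊆ (AlgebraicIndependent.matroid k F).closure (range s) := by
    rw [AlgebraicIndependent.matroid_closure_eq]
    rintro _ ⟨i, rfl⟩
    exact hs i
  obtain ⟨B, hB⟩ := (AlgebraicIndependent.matroid k F).exists_isBasis (range s)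
    (by rw [AlgebraicIndependent.matroid_e]; exact subset_univ _)
  have h3 : ENat.card α ≤ B.encard := by
    calc ENat.card α ≤ (range x).encard := hinj.encard_range
      _ = (AlgebraicIndependent.matroid k F).eRk (range x) := h1.eRk_eq_encard.symm
      _ ≤ (AlgebraicIndependent.matroid k F).eRk
          ((AlgebraicIndependent.matroid k F).closure (range s)) := Matroid.eRk_mono _ h2
      _ = (AlgebraicIndependent.matroid k F).eRk (range s) := Matroid.eRk_closure_eq _ _
      _ = B.encard := hB.encard_eq_eRk.symm
  obtain ⟨t, htB, ht⟩ := exists_subset_encard_eq h3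
  have htf : t.Finite := by
    rw [← encard_lt_top_iff, ht]
    exact ENat.card_lt_top.mpr inferInstance
  have : Finite t := htf
  have hcard : Nat.card α = Nat.card t := by
    have h5 : ((t.ncard : ℕ) : ℕ∞) = ((Nat.card α : ℕ) : ℕ∞) := by
      rw [htf.cast_ncard_eq, ht, ENat.card_eq_coe_natCard]
    rw [Nat.card_coe_set_eq]
    exact_mod_cast h5.symm
  obtain ⟨e⟩ : Nonempty (α ≃ t) :=
    ⟨(Finite.equivFin α).trans ((finCongr hcard).trans (Finite.equivFin t).symm)⟩
  have hpre : ∀ j : α, ∃ i : σ, s i = (e j : F) := by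
    intro j
    exact hB.subset (htB (e j).2)
  choose f hf using hpre
  have hind : AlgebraicIndependent k (fun b : B => (b : F)) := hB.indep
  have h6 : AlgebraicIndependent k (fun j => s (f j)) := by
    have h7 := hind.comp (fun j : α => (⟨(e j : F), htB (e j).2⟩ : B)) (by
      intro a b hab
      have := congrArg Subtype.val hab
      exact e.injective (Subtype.ext this))
    have h8 : (fun j => s (f j)) = (fun b : B => (b : F)) ∘
        (fun j : α => (⟨(e j : F), htB (e j).2⟩ : B)) := by
      funext j
      exact hf j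
    rw [h8]
    exact h7
  refine ⟨f, fun a b hab => ?_, h6⟩
  exact h6.injective (by simp only [hab])

/-- As many generators as algebraically independent elements. -/
theorem tool {α β : Type} [Finite α] [Finite β] (hc : Nat.card α = Nat.card β) (x : α → F)
    (hx : AlgebraicIndependent k x) (y : β → F)
    (hy : ∀ i, IsAlgebraic (Algebra.adjoin k (range y)) (x i)) : AlgebraicIndependent k y := by
  obtain ⟨f, hf, h⟩ := select x hx y hy
  have hb : Function.Bijective f := (Nat.bijective_iff_injective_and_card f).mpr ⟨hf, hc⟩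
  have h2 := h.comp (Equiv.ofBijective f hb).symm (Equiv.injective _)
  have h3 : (fun j => y (f j)) ∘ (Equiv.ofBijective f hb).symm = y := by
    funext j
    change y (f ((Equiv.ofBijective f hb).symm j)) = y j
    congr 1
    exact (Equiv.ofBijective f hb).apply_symm_apply j
  rwa [h3] at h2

theorem alg_mem {S : Set F} {a : F} (h : a ∈ Algebra.adjoin k S) :
    IsAlgebraic (Algebra.adjoin k S) a :=
  isAlgebraic_algebraMap (⟨a, h⟩ : Algebra.adjoin k S)

theorem alg_rg {β : Type} (y : β → F) (j : β) :
    IsAlgebraic (Algebra.adjoin k (range y)) (y j) := alg_mem (Algebra.subset_adjoin ⟨j, rfl⟩)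

end tool

/-- The polynomial with the roots `g i`. -/
theorem root_id {ι : Type u} {F : Type u} [Fintype ι] [Field F] (g : ι → F) (i0 : ι) :
    ∑ r ∈ Finset.range (Fintype.card ι + 1), (-1) ^ r * esy g r * g i0 ^ (Fintype.card ι - r) =
      0 := by
  classical
  have h1 : ∏ i : ι, (-g i + g i0) = 0 :=
    Finset.prod_eq_zero (Finset.mem_univ i0) (by ring)
  rw [Finset.prod_add, Finset.sum_powerset, Finset.card_univ] at h1
  rw [← h1]
  refine Finset.sum_congr rfl fun r _ => ?_
  unfold esy
  rw [Finset.mul_sum, Finset.sum_mul]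
  refine Finset.sum_congr rfl fun t ht => ?_
  rw [Finset.mem_powersetCard] at ht
  rw [Finset.prod_const, Finset.card_sdiff_of_subset ht.1, ht.2, Finset.card_univ]
  congr 1
  rw [← ht.2, ← Finset.prod_const, ← Finset.prod_mul_distrib]
  refine Finset.prod_congr rfl fun i _ => ?_
  ring

theorem esy_scale {ι : Type u} {L F : Type u} [Fintype ι] [Field L] [Field F] [Algebra L F]
    (g : ι → L) (T : F) (r : ℕ) :
    esy (fun i => algebraMap L F (g i) * T) r = algebraMap L F (esy g r) * T ^ r := by
  unfold esy
  rw [map_sum, Finset.sum_mul]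
  refine Finset.sum_congr rfl fun t ht => ?_
  rw [Finset.mem_powersetCard] at ht
  rw [Finset.prod_mul_distrib, Finset.prod_const, ht.2, map_prod]

theorem esy_zero {ι : Type u} {L : Type u} [Fintype ι] [Field L] (g : ι → L) : esy g 0 = 1 := by
  unfold esy
  simp

/-- A root is algebraic over the algebra generated by the elementary symmetric functions. -/
theorem root_alg {k : Type v} {F : Type u} [Field k] [Field F] [Algebra k F] {ι : Type u}
    [Fintype ι] (g : ι → F) (i0 : ι) (A : Subalgebra k F) (hA : ∀ r, esy g r ∈ A) :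
    IsAlgebraic A (g i0) := by
  classical
  let c : ℕ → A := fun r => ⟨(-1) ^ r * esy g r, A.mul_mem (A.pow_mem (A.neg_mem A.one_mem) r)
    (hA r)⟩
  refine ⟨∑ r ∈ Finset.range (Fintype.card ι + 1),
    Polynomial.monomial (Fintype.card ι - r) (c r), ?_, ?_⟩
  · intro h
    have h1 := congrArg (fun p => Polynomial.coeff p (Fintype.card ι)) h
    simp only [Polynomial.finsetSum_coeff, Polynomial.coeff_monomial, Polynomial.coeff_zero] at h1
    rw [Finset.sum_eq_single 0] at h1
    · rw [if_pos (by simp)] at h1
      have h2 := congrArg (fun a : A => (a : F)) h1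
      change (-1) ^ 0 * esy g 0 = (0 : F) at h2
      rw [esy_zero] at h2
      simp at h2
    · intro r hr hr0
      rw [Finset.mem_range] at hr
      rw [if_neg]
      omega
    · intro h0
      exact absurd (Finset.mem_range.mpr (by omega)) h0
  · rw [map_sum, ← root_id g i0]
    refine Finset.sum_congr rfl fun r _ => ?_
    rw [Polynomial.aeval_monomial]
    rfl

theorem main : Pool.Agent.W619.Y.S_SYM.{u, v} := by
  intro k L _ _ _ _ ι _ i0 h P hP hind
  classical
  set T : RatFunc L := RatFunc.X with hT
  have hT0 : T ≠ 0 := RatFunc.X_ne_zero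
  -- the elements `p_l T`
  have hc : AlgebraicIndependent k (fun l : Fin (h + 1) => algebraMap L (RatFunc L) (P i0 l) * T) := by
    have h1 : AlgebraicIndependent L (fun _ : Unit => algebraMap L (RatFunc L) (P i0 0) * T) := by
      rw [algebraicIndependent_unique_type_iff]
      intro halg
      have h2 : IsAlgebraic L ((algebraMap L (RatFunc L) (P i0 0))⁻¹ *
          (algebraMap L (RatFunc L) (P i0 0) * T)) := (isAlgebraic_algebraMap _).inv.mul halg
      rw [inv_mul_cancel_left₀ (by simpa using hP 0)] at h2
      exact RatFunc.transcendental_X h2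
    have h3 := hind.sumElim_comp h1
    refine tool ?_ _ h3 _ ?_
    · simp [add_comm]
    · rintro (_ | l)
      · exact alg_mem (Algebra.subset_adjoin ⟨0, rfl⟩)
      · have e1 : Sum.elim (fun _ : Unit => algebraMap L (RatFunc L) (P i0 0) * T)
            (⇑(algebraMap L (RatFunc L)) ∘ fun l : Fin h => P i0 l.succ / P i0 0) (Sum.inr l) =
            (algebraMap L (RatFunc L) (P i0 l.succ) * T) *
              (algebraMap L (RatFunc L) (P i0 0) * T)⁻¹ := by
          simp only [Sum.elim_inr, Function.comp_apply, map_div₀]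
          have h0 : algebraMap L (RatFunc L) (P i0 0) ≠ 0 := by simpa using hP 0
          field_simp
        rw [e1]
        exact IsAlgebraic.mul (alg_rg _ l.succ) (IsAlgebraic.inv (alg_rg _ 0))
  -- the choice
  obtain ⟨f, -, hf⟩ := select _ hc
    (fun σ : Fin (h + 1) × ℕ => algebraMap L (RatFunc L) (esy (fun i => P i σ.1) σ.2) * T ^ σ.2)
    (by
      intro l
      refine root_alg (fun i => algebraMap L (RatFunc L) (P i l) * T) i0 _ fun r => ?_
      rw [esy_scale]
      exact Algebra.subset_adjoin ⟨(l, r), rfl⟩)
  have hr : ∀ j, 1 ≤ (f j).2 := by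
    intro j
    by_contra hcon
    have h0 : (f j).2 = 0 := by omega
    have h1 := hf.transcendental j
    apply h1
    simp only [h0, esy_zero, map_one, pow_zero, mul_one]
    exact isAlgebraic_one
  have hs : ∀ j, esy (fun i => P i (f j).1) (f j).2 ≠ 0 := by
    intro j hcon
    apply hf.transcendental j
    simp only [hcon, map_zero, zero_mul]
    exact isAlgebraic_zero
  have hR : ∀ j, (f j).2 * ((∏ i, (f i).2) / (f j).2) = ∏ i, (f i).2 := fun j =>
    Nat.mul_div_cancel' (Finset.dvd_prod_of_mem _ (Finset.mem_univ j))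
  have hRp : 1 ≤ ∏ i, (f i).2 := Finset.one_le_prod' fun i _ => hr i
  refine ⟨∏ i, (f i).2, fun j => (f j).1, fun j => (f j).2, fun j => (∏ i, (f i).2) / (f j).2,
    hRp, hR, hs, ?_⟩
  -- the powers
  obtain ⟨R, hRd⟩ : ∃ R, R = ∏ i, (f i).2 := ⟨_, rfl⟩
  rw [← hRd] at hR hRp ⊢
  have hq : ∀ j, 0 < R / (f j).2 := by
    intro j
    rcases Nat.eq_zero_or_pos (R / (f j).2) with h0 | h0
    · have := hR j
      rw [h0, mul_zero] at this
      omega
    · exact h0
  obtain ⟨a, ha⟩ : ∃ a : Fin (h + 1) → L, a = fun j =>
    esy (fun i => P i (f j).1) (f j).2 ^ (R / (f j).2) := ⟨_, rfl⟩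
  have ha0 : ∀ j, a j ≠ 0 := by
    intro j
    rw [ha]
    exact pow_ne_zero _ (hs j)
  have hpow : AlgebraicIndependent k (fun j => algebraMap L (RatFunc L) (a j) * T ^ R) := by
    refine tool rfl _ hf _ fun j => ?_
    refine IsAlgebraic.of_pow (hq j) (alg_mem (Algebra.subset_adjoin ⟨j, ?_⟩))
    simp only [ha]
    rw [mul_pow, ← map_pow, ← pow_mul, hR j]
  -- the quotients
  have hquo : AlgebraicIndependent k (Sum.elim
      (fun _ : Unit => algebraMap L (RatFunc L) (a 0) * T ^ R)
      (fun j : Fin h => algebraMap L (RatFunc L) (a j.succ / a 0))) := by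
    refine tool (by simp [add_comm]) _ hpow _ fun j => ?_
    refine Fin.cases ?_ (fun j => ?_) j
    · exact alg_mem (Algebra.subset_adjoin ⟨Sum.inl (), rfl⟩)
    · have e1 : algebraMap L (RatFunc L) (a j.succ) * T ^ R =
          algebraMap L (RatFunc L) (a j.succ / a 0) *
            (algebraMap L (RatFunc L) (a 0) * T ^ R) := by
        rw [map_div₀]
        have h0 : algebraMap L (RatFunc L) (a 0) ≠ 0 := by simpa using ha0 0
        field_simp
      rw [e1]
      exact IsAlgebraic.mul (alg_rg _ (Sum.inr j)) (alg_rg _ (Sum.inl ()))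
  have hlast := hquo.comp Sum.inr Sum.inr_injective
  have e2 : (Sum.elim (fun _ : Unit => algebraMap L (RatFunc L) (a 0) * T ^ R)
      (fun j : Fin h => algebraMap L (RatFunc L) (a j.succ / a 0))) ∘ Sum.inr =
      (IsScalarTower.toAlgHom k L (RatFunc L)) ∘ (fun j : Fin h => a j.succ / a 0) := by
    funext j
    rfl
  rw [e2, AlgHom.algebraicIndependent_iff _ (algebraMap L (RatFunc L)).injective] at hlast
  rw [ha] at hlast
  exact hlast

end Pool.Agent.W513.PG
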